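import Pool.Agent.H9.HN.TI

/-!
# The diagonal is a chain map
-/

set_option autoImplicit false

noncomputable section

namespace Pool.Agent.H9.HN

open Classical Pool.Agent.H58.HN
open scoped TensorProduct

variable {P : Type} [PartialOrder P]

/-- the generator of a nonempty chain, zero otherwise -/
def F (a : Finset P) : CG P :=
  if h : a.Nonempty ∧ IsChain (· ≤ ·) (a : Set P) then e ⟨a, h.2⟩ else 0

theorem F_eq (s : Ch P) (h : s.1.Nonempty) : F s.1 = e s := by
  unfold F
  rw [dif_pos ⟨h, s.2⟩]
  rfl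

theorem bp_F (s : Ch P) : bp (e s) = ∑ y ∈ s.1, sg s y • F (s.1.erase y) := by
  rw [bp_e]
  by_cases h2 : 2 ≤ s.1.card
  · rw [if_pos h2, bd_e]
    refine Finset.sum_congr rfl fun y hy => ?_
    have hc := card_er s hy
    rw [← F_eq (er s y) (Finset.card_pos.1 (by omega))]
    rfl
  · rw [if_neg h2]
    refine (Finset.sum_eq_zero fun y hy => ?_).symm
    have hc := Finset.card_erase_add_one hy
    have h0 : s.1.erase y = ∅ := Finset.card_eq_zero.1 (by omega)
    rw [h0]
    simp [F]

theorem AW_e (s : Ch P) : AW (e s) = ∑ x ∈ s.1, e (lo s x) ⊗ₜ[ℚ] e (hi s x) := by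
  unfold AW
  rw [e, Finsupp.linearCombination_single, one_smul]

/-- telescoping -/
theorem tel {M : Type} [AddCommGroup M] [Module ℚ M] (n : ℕ) :
    ∀ (s : Finset P), s.card = n → IsChain (· ≤ ·) (s : Set P) → ∀ T : Finset P → Finset P → M,
    ∑ x ∈ s, (-1 : ℚ) ^ (s.filter (fun z => z < x)).card •
      (T (s.filter (fun z => z < x)) (s.filter (fun z => x ≤ z)) +
        T (s.filter (fun z => z ≤ x)) (s.filter (fun z => x < z))) =
      T ∅ s - (-1 : ℚ) ^ s.card • T s ∅ := by
  induction n with
  | zero =>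
    intro s hs _ T
    rw [Finset.card_eq_zero] at hs
    subst hs
    simp
  | succ n ih =>
    intro s hs hch T
    have hne : s.Nonempty := Finset.card_pos.1 (by omega)
    obtain ⟨m, hm⟩ := s.exists_maximal hne
    have hms : m ∈ s := hm.1
    have hle : ∀ z ∈ s, z ≤ m := by
      intro z hz
      rcases hch.total (Finset.mem_coe.2 hz) (Finset.mem_coe.2 hms) with h | h
      · exact h
      · exact hm.2 hz h
    have hlt : ∀ z ∈ s.erase m, z < m := fun z hz =>
      lt_of_le_of_ne (hle z (Finset.mem_of_mem_erase hz)) (Finset.ne_of_mem_erase hz)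
    have hcard : (s.erase m).card = n := by
      have := Finset.card_erase_add_one hms
      omega
    have hch' : IsChain (· ≤ ·) ((s.erase m : Finset P) : Set P) :=
      hch.mono fun _ h => Finset.mem_of_mem_erase (Finset.mem_coe.1 h)
    have IH := ih (s.erase m) hcard hch' fun a b => T a (insert m b)
    rw [← Finset.sum_erase_add _ _ hms]
    have h1 : ∑ x ∈ s.erase m, (-1 : ℚ) ^ (s.filter (fun z => z < x)).card •
      (T (s.filter (fun z => z < x)) (s.filter (fun z => x ≤ z)) +
        T (s.filter (fun z => z ≤ x)) (s.filter (fun z => x < z))) =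
        ∑ x ∈ s.erase m, (-1 : ℚ) ^ ((s.erase m).filter (fun z => z < x)).card •
      (T ((s.erase m).filter (fun z => z < x)) (insert m ((s.erase m).filter (fun z => x ≤ z))) +
        T ((s.erase m).filter (fun z => z ≤ x))
          (insert m ((s.erase m).filter (fun z => x < z)))) := by
      refine Finset.sum_congr rfl fun x hx => ?_
      have hxm := hlt x hx
      have a1 : s.filter (fun z => z < x) = (s.erase m).filter (fun z => z < x) := by
        ext z
        simp only [Finset.mem_filter, Finset.mem_erase]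
        constructor
        · rintro ⟨h, h'⟩
          exact ⟨⟨fun h0 => lt_asymm hxm (h0 ▸ h'), h⟩, h'⟩
        · rintro ⟨⟨_, h⟩, h'⟩
          exact ⟨h, h'⟩
      have a2 : s.filter (fun z => z ≤ x) = (s.erase m).filter (fun z => z ≤ x) := by
        ext z
        simp only [Finset.mem_filter, Finset.mem_erase]
        constructor
        · rintro ⟨h, h'⟩
          exact ⟨⟨fun h0 => not_le_of_gt hxm (h0 ▸ h'), h⟩, h'⟩
        · rintro ⟨⟨_, h⟩, h'⟩
          exact ⟨h, h'⟩
      have a3 : s.filter (fun z => x ≤ z) = insert m ((s.erase m).filter (fun z => x ≤ z)) := by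
        ext z
        simp only [Finset.mem_filter, Finset.mem_erase, Finset.mem_insert]
        constructor
        · rintro ⟨h, h'⟩
          by_cases h0 : z = m
          · exact Or.inl h0
          · exact Or.inr ⟨⟨h0, h⟩, h'⟩
        · rintro (h | ⟨⟨_, h⟩, h'⟩)
          · exact ⟨h ▸ hms, h ▸ hxm.le⟩
          · exact ⟨h, h'⟩
      have a4 : s.filter (fun z => x < z) = insert m ((s.erase m).filter (fun z => x < z)) := by
        ext z
        simp only [Finset.mem_filter, Finset.mem_erase, Finset.mem_insert]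
        constructor
        · rintro ⟨h, h'⟩
          by_cases h0 : z = m
          · exact Or.inl h0
          · exact Or.inr ⟨⟨h0, h⟩, h'⟩
        · rintro (h | ⟨⟨_, h⟩, h'⟩)
          · exact ⟨h ▸ hms, h ▸ hxm⟩
          · exact ⟨h, h'⟩
      rw [a1, a2, a3, a4]
    rw [h1]
    have b1 : s.filter (fun z => z < m) = s.erase m := by
      ext z
      simp only [Finset.mem_filter, Finset.mem_erase]
      constructor
      · rintro ⟨h, h'⟩
        exact ⟨h'.ne, h⟩
      · rintro ⟨h, h'⟩
        exact ⟨h', lt_of_le_of_ne (hle z h') h⟩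
    have b2 : s.filter (fun z => z ≤ m) = s := Finset.filter_true_of_mem hle
    have b3 : s.filter (fun z => m ≤ z) = {m} := by
      ext z
      simp only [Finset.mem_filter, Finset.mem_singleton]
      constructor
      · rintro ⟨h, h'⟩
        exact le_antisymm (hle z h) h'
      · rintro rfl
        exact ⟨hms, le_refl _⟩
    have b4 : s.filter (fun z => m < z) = ∅ := by
      refine Finset.filter_false_of_mem fun z hz h => ?_
      exact absurd (hle z hz) (not_le_of_gt h)
    rw [IH, b1, b2, b3, b4, Finset.insert_erase hms, hcard, hs, pow_succ]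
    simp only [insert_empty_eq]
    module

theorem step (s : Ch P) {x : P} (hx : x ∈ s.1) :
    D2 (e (lo s x) ⊗ₜ[ℚ] e (hi s x)) =
      ∑ y ∈ s.1.erase x, sg s y • (F ((s.1.erase y).filter fun z => z ≤ x) ⊗ₜ[ℚ]
        F ((s.1.erase y).filter fun z => x ≤ z)) +
      sg s x • (F (s.1.filter fun z => z < x) ⊗ₜ[ℚ] F (s.1.filter fun z => x ≤ z) +
        F (s.1.filter fun z => z ≤ x) ⊗ₜ[ℚ] F (s.1.filter fun z => x < z)) := by
  have hlo : (lo s x).1.Nonempty := ⟨x, Finset.mem_filter.2 ⟨hx, le_refl _⟩⟩
  have hhi : (hi s x).1.Nonempty := ⟨x, Finset.mem_filter.2 ⟨hx, le_refl _⟩⟩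
  have elo : e (lo s x) = F (s.1.filter fun z => z ≤ x) := (F_eq _ hlo).symm
  have ehi : e (hi s x) = F (s.1.filter fun z => x ≤ z) := (F_eq _ hhi).symm
  have clo : (lo s x).1 = insert x (s.1.filter fun z => z < x) := by
    ext z
    simp only [lo, Finset.mem_filter, Finset.mem_insert]
    constructor
    · rintro ⟨h, h'⟩
      rcases h'.eq_or_lt with h0 | h0
      · exact Or.inl h0
      · exact Or.inr ⟨h, h0⟩
    · rintro (h | ⟨h, h'⟩)
      · exact ⟨h ▸ hx, h ▸ le_refl _⟩
      · exact ⟨h, h'.le⟩
  have chi : (hi s x).1 = insert x (s.1.filter fun z => x < z) := by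
    ext z
    simp only [hi, Finset.mem_filter, Finset.mem_insert]
    constructor
    · rintro ⟨h, h'⟩
      rcases h'.eq_or_lt with h0 | h0
      · exact Or.inl h0.symm
      · exact Or.inr ⟨h, h0⟩
    · rintro (h | ⟨h, h'⟩)
      · exact ⟨h ▸ hx, h ▸ le_refl _⟩
      · exact ⟨h, h'.le⟩
  have nlo : x ∉ s.1.filter fun z => z < x := by simp
  have nhi : x ∉ s.1.filter fun z => x < z := by simp
  have cardlo : (lo s x).1.card = (s.1.filter fun z => z < x).card + 1 := by
    rw [clo, Finset.card_insert_of_notMem nlo]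
  have sgx : (-1 : ℚ) ^ ((lo s x).1.card + 1) = sg s x := by
    rw [cardlo, add_assoc, pow_add]
    simp [sg]
  -- the first part
  have p1 : bp (e (lo s x)) = sg s x • F (s.1.filter fun z => z < x) +
      ∑ y ∈ s.1.filter (fun z => z < x), sg s y • F ((s.1.erase y).filter fun z => z ≤ x) := by
    rw [bp_F]
    conv_lhs => rw [clo]
    rw [Finset.sum_insert nlo]
    congr 1
    · have c1 : sg (lo s x) x = sg s x := by
        unfold sg
        congr 2
        ext z
        simp only [lo, Finset.mem_filter]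
        constructor
        · rintro ⟨⟨h, _⟩, h'⟩
          exact ⟨h, h'⟩
        · rintro ⟨h, h'⟩
          exact ⟨⟨h, h'.le⟩, h'⟩
      have c2 : (insert x (s.1.filter fun z => z < x)).erase x = s.1.filter fun z => z < x :=
        Finset.erase_insert nlo
      rw [c1, c2]
    · refine Finset.sum_congr rfl fun y hy => ?_
      rw [Finset.mem_filter] at hy
      have c1 : sg (lo s x) y = sg s y := by
        unfold sg
        congr 2
        ext z
        simp only [lo, Finset.mem_filter]
        constructor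
        · rintro ⟨⟨h, _⟩, h'⟩
          exact ⟨h, h'⟩
        · rintro ⟨h, h'⟩
          exact ⟨⟨h, (h'.trans hy.2).le⟩, h'⟩
      have c2 : (insert x (s.1.filter fun z => z < x)).erase y =
          (s.1.erase y).filter fun z => z ≤ x := by
        rw [← clo]
        ext z
        simp only [lo, Finset.mem_filter, Finset.mem_erase]
        tauto
      rw [c1, c2]
  have p2 : (-1 : ℚ) ^ ((lo s x).1.card + 1) • bp (e (hi s x)) =
      sg s x • F (s.1.filter fun z => x < z) +
      ∑ y ∈ s.1.filter (fun z => x < z), sg s y • F ((s.1.erase y).filter fun z => x ≤ z) := by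
    rw [bp_F]
    conv_lhs => rw [chi]
    rw [Finset.sum_insert nhi, smul_add, Finset.smul_sum, sgx]
    congr 1
    · have c1 : sg (hi s x) x = 1 := by
        unfold sg
        have : (hi s x).1.filter (fun y => y < x) = ∅ := by
          refine Finset.filter_false_of_mem fun z hz h => ?_
          exact absurd (Finset.mem_filter.1 hz).2 (not_le_of_gt h)
        rw [this]
        simp
      have c2 : (insert x (s.1.filter fun z => x < z)).erase x = s.1.filter fun z => x < z :=
        Finset.erase_insert nhi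
      rw [c1, c2, one_smul]
    · refine Finset.sum_congr rfl fun y hy => ?_
      rw [Finset.mem_filter] at hy
      have c1 : sg s x * sg (hi s x) y = sg s y := by
        unfold sg
        rw [← pow_add, ← Finset.card_union_of_disjoint]
        · congr 2
          ext z
          simp only [hi, Finset.mem_filter, Finset.mem_union]
          constructor
          · rintro (⟨h, h'⟩ | ⟨⟨h, _⟩, h'⟩)
            · exact ⟨h, h'.trans hy.2⟩
            · exact ⟨h, h'⟩
          · rintro ⟨h, h'⟩
            rcases s.2.total (Finset.mem_coe.2 hx) (Finset.mem_coe.2 h) with h0 | h0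
            · exact Or.inr ⟨⟨h, h0⟩, h'⟩
            · rcases h0.eq_or_lt with h1 | h1
              · exact Or.inr ⟨⟨h, h1 ▸ le_refl _⟩, h'⟩
              · exact Or.inl ⟨h, h1⟩
        · rw [Finset.disjoint_left]
          intro z hz hz'
          simp only [hi, Finset.mem_filter] at hz hz'
          exact absurd hz'.1.2 (not_le_of_gt hz.2)
      have c2 : (insert x (s.1.filter fun z => x < z)).erase y =
          (s.1.erase y).filter fun z => x ≤ z := by
        rw [← chi]
        ext z
        simp only [hi, Finset.mem_filter, Finset.mem_erase]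
        tauto
      rw [c2, smul_smul, c1]
  have hsplit : s.1.erase x = s.1.filter (fun z => z < x) ∪ s.1.filter (fun z => x < z) := by
    ext z
    simp only [Finset.mem_erase, Finset.mem_filter, Finset.mem_union]
    constructor
    · rintro ⟨h, h'⟩
      rcases s.2.total (Finset.mem_coe.2 hx) (Finset.mem_coe.2 h') with h0 | h0
      · exact Or.inr ⟨h', lt_of_le_of_ne h0 (Ne.symm h)⟩
      · exact Or.inl ⟨h', lt_of_le_of_ne h0 h⟩
    · rintro (⟨h, h'⟩ | ⟨h, h'⟩)
      · exact ⟨h'.ne, h⟩
      · exact ⟨h'.ne', h⟩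
  have hdisj : Disjoint (s.1.filter (fun z => z < x)) (s.1.filter (fun z => x < z)) := by
    rw [Finset.disjoint_left]
    intro z hz hz'
    exact lt_asymm (Finset.mem_filter.1 hz).2 (Finset.mem_filter.1 hz').2
  rw [D2_tmul, om_e, p1]
  have q : ((-1 : ℚ) ^ ((lo s x).1.card + 1) • e (lo s x)) ⊗ₜ[ℚ] bp (e (hi s x)) =
      e (lo s x) ⊗ₜ[ℚ] ((-1 : ℚ) ^ ((lo s x).1.card + 1) • bp (e (hi s x))) := by
    rw [TensorProduct.smul_tmul]
  rw [q, p2, hsplit, Finset.sum_union hdisj, elo, ehi]
  rw [TensorProduct.add_tmul, TensorProduct.tmul_add, TensorProduct.sum_tmul,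
    TensorProduct.tmul_sum]
  have r1 : ∀ y ∈ s.1.filter (fun z => z < x),
      (sg s y • F ((s.1.erase y).filter fun z => z ≤ x)) ⊗ₜ[ℚ] F (s.1.filter fun z => x ≤ z) =
      sg s y • (F ((s.1.erase y).filter fun z => z ≤ x) ⊗ₜ[ℚ]
        F ((s.1.erase y).filter fun z => x ≤ z)) := by
    intro y hy
    rw [Finset.mem_filter] at hy
    have : s.1.filter (fun z => x ≤ z) = (s.1.erase y).filter fun z => x ≤ z := by
      ext z
      simp only [Finset.mem_filter, Finset.mem_erase]
      constructor
      · rintro ⟨h, h'⟩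
        exact ⟨⟨fun h0 => absurd h' (not_le_of_gt (h0 ▸ hy.2)), h⟩, h'⟩
      · rintro ⟨⟨_, h⟩, h'⟩
        exact ⟨h, h'⟩
    rw [this, TensorProduct.smul_tmul']
  have r2 : ∀ y ∈ s.1.filter (fun z => x < z),
      F (s.1.filter fun z => z ≤ x) ⊗ₜ[ℚ] (sg s y • F ((s.1.erase y).filter fun z => x ≤ z)) =
      sg s y • (F ((s.1.erase y).filter fun z => z ≤ x) ⊗ₜ[ℚ]
        F ((s.1.erase y).filter fun z => x ≤ z)) := by
    intro y hy
    rw [Finset.mem_filter] at hy
    have : s.1.filter (fun z => z ≤ x) = (s.1.erase y).filter fun z => z ≤ x := by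
      ext z
      simp only [Finset.mem_filter, Finset.mem_erase]
      constructor
      · rintro ⟨h, h'⟩
        exact ⟨⟨fun h0 => absurd h' (not_le_of_gt (h0 ▸ hy.2)), h⟩, h'⟩
      · rintro ⟨⟨_, h⟩, h'⟩
        exact ⟨h, h'⟩
    rw [this, TensorProduct.tmul_smul]
  rw [Finset.sum_congr rfl r1, Finset.sum_congr rfl r2, ← TensorProduct.smul_tmul',
    TensorProduct.tmul_smul, smul_add]
  abel

/-- Target TJ. -/
theorem pf_TJ : T_TJ := by
  intro P _ c
  have : (D2 ∘ₗ AW : CG P →ₗ[ℚ] CC P) = AW ∘ₗ bd := by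
    apply ext_e
    intro s
    rw [LinearMap.comp_apply, LinearMap.comp_apply, AW_e, bd_e, map_sum, map_sum]
    rw [Finset.sum_congr rfl fun x hx => step s hx, Finset.sum_add_distrib]
    have ht := tel s.1.card s.1 rfl s.2 fun a b => F a ⊗ₜ[ℚ] F b
    have hF : (F ∅ : CG P) = 0 := by simp [F]
    simp only [hF, TensorProduct.zero_tmul, TensorProduct.tmul_zero, smul_zero, sub_zero] at ht
    have ht' : ∑ x ∈ s.1, sg s x • (F (s.1.filter fun z => z < x) ⊗ₜ[ℚ]
        F (s.1.filter fun z => x ≤ z) +
        F (s.1.filter fun z => z ≤ x) ⊗ₜ[ℚ] F (s.1.filter fun z => x < z)) = 0 := ht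
    rw [ht', add_zero]
    have hR : ∀ y ∈ s.1, AW (sg s y • e (er s y)) = ∑ x ∈ s.1.erase y,
        sg s y • (F ((s.1.erase y).filter fun z => z ≤ x) ⊗ₜ[ℚ]
        F ((s.1.erase y).filter fun z => x ≤ z)) := by
      intro y hy
      rw [map_smul, AW_e, Finset.smul_sum]
      refine Finset.sum_congr rfl fun x hx => ?_
      have h1 : (lo (er s y) x).1.Nonempty := ⟨x, Finset.mem_filter.2 ⟨hx, le_refl _⟩⟩
      have h2 : (hi (er s y) x).1.Nonempty := ⟨x, Finset.mem_filter.2 ⟨hx, le_refl _⟩⟩
      rw [← F_eq _ h1, ← F_eq _ h2]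
      rfl
    rw [Finset.sum_congr rfl hR]
    refine Finset.sum_comm' fun x y => ?_
    simp only [Finset.mem_erase]
    constructor
    · rintro ⟨h1, h2, h3⟩
      exact ⟨⟨Ne.symm h2, h1⟩, h3⟩
    · rintro ⟨⟨h1, h2⟩, h3⟩
      exact ⟨h2, Ne.symm h1, h3⟩
  exact DFunLike.congr_fun this c

end Pool.Agent.H9.HN
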