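import Pool.Agent.H58.HN.TargetsT

/-!
# The boundary of the tensor product
-/

set_option autoImplicit false

noncomputable section

namespace Pool.Agent.H9.HN

open Classical Pool.Agent.H58.HN
open scoped TensorProduct

variable {P : Type} [PartialOrder P]

theorem bd_e (s : Ch P) : bd (e s) = ∑ x ∈ s.1, sg s x • e (er s x) := by
  simp [bd, e, Finsupp.linearCombination_single]

theorem bp_e (s : Ch P) : bp (e s) = if 2 ≤ s.1.card then bd (e s) else 0 := by
  unfold bp
  rw [e, Finsupp.linearCombination_single, one_smul]
  rfl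

theorem om_e (s : Ch P) : om (e s) = (-1 : ℚ) ^ (s.1.card + 1) • e s := by
  unfold om
  rw [e, Finsupp.linearCombination_single, one_smul]
  rfl

theorem card_er (s : Ch P) {x : P} (hx : x ∈ s.1) : (er s x).1.card + 1 = s.1.card :=
  Finset.card_erase_add_one hx

theorem ext_e {M : Type} [AddCommGroup M] [Module ℚ M] {f g : CG P →ₗ[ℚ] M}
    (h : ∀ s, f (e s) = g (e s)) : f = g :=
  Finsupp.lhom_ext' fun s => LinearMap.ext_ring (h s)

theorem bp_bp (hA : T_TA) (c : CG P) : bp (bp c) = 0 := by
  have : (bp ∘ₗ bp : CG P →ₗ[ℚ] CG P) = 0 := by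
    apply ext_e
    intro s
    rw [LinearMap.comp_apply, LinearMap.zero_apply, bp_e]
    by_cases h2 : 2 ≤ s.1.card
    · rw [if_pos h2]
      by_cases h3 : 3 ≤ s.1.card
      · have h := hA P (e s)
        rw [bd_e] at h ⊢
        rw [map_sum] at h ⊢
        rw [← h]
        refine Finset.sum_congr rfl fun x hx => ?_
        rw [map_smul, map_smul, bp_e, if_pos]
        have := card_er s hx
        omega
      · rw [bd_e, map_sum]
        refine Finset.sum_eq_zero fun x hx => ?_
        rw [map_smul, bp_e, if_neg, smul_zero]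
        have := card_er s hx
        omega
    · rw [if_neg h2, map_zero]
  exact DFunLike.congr_fun this c

theorem om_om (c : CG P) : om (om c) = c := by
  have : (om ∘ₗ om : CG P →ₗ[ℚ] CG P) = LinearMap.id := by
    apply ext_e
    intro s
    rw [LinearMap.comp_apply, LinearMap.id_apply, om_e, map_smul, om_e, smul_smul, ← pow_add,
      ← two_mul, pow_mul]
    simp
  exact DFunLike.congr_fun this c

theorem om_bp (c : CG P) : om (bp c) = -bp (om c) := by
  have : (om ∘ₗ bp : CG P →ₗ[ℚ] CG P) = -(bp ∘ₗ om) := by
    apply ext_e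
    intro s
    rw [LinearMap.comp_apply, LinearMap.neg_apply, LinearMap.comp_apply, om_e, map_smul, bp_e]
    by_cases h2 : 2 ≤ s.1.card
    · rw [if_pos h2, bd_e, map_sum, Finset.smul_sum, ← Finset.sum_neg_distrib]
      refine Finset.sum_congr rfl fun x hx => ?_
      rw [map_smul, om_e, card_er s hx, pow_succ]
      module
    · rw [if_neg h2]
      simp
  exact DFunLike.congr_fun this c

theorem D2_tmul (x y : CG P) : D2 (x ⊗ₜ[ℚ] y) = bp x ⊗ₜ[ℚ] y + om x ⊗ₜ[ℚ] bp y := by
  simp [D2]

/-- Target TI. -/
theorem pf_TI (hA : T_TA) : T_TI := by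
  intro P _
  constructor
  · intro w
    induction w using TensorProduct.induction_on with
    | zero => simp
    | tmul x y =>
      rw [D2_tmul, map_add, D2_tmul, D2_tmul, bp_bp hA, bp_bp hA, om_bp, TensorProduct.zero_tmul,
        TensorProduct.tmul_zero, TensorProduct.neg_tmul]
      abel
    | add x y hx hy => rw [map_add, map_add, hx, hy, add_zero]
  · intro s t hs ht
    rw [D2_tmul]
    refine Submodule.add_mem _ ?_ ?_
    · rw [bp_e]
      by_cases h2 : 2 ≤ s.1.card
      · rw [if_pos h2, bd_e, TensorProduct.sum_tmul]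
        refine Submodule.sum_mem _ fun x hx => ?_
        rw [← TensorProduct.smul_tmul']
        refine Submodule.smul_mem _ _ (Submodule.subset_span ?_)
        have hc := card_er s hx
        refine ⟨er s x, t, rfl, ?_, ht, Finset.erase_subset _ _, Finset.Subset.refl _, ?_⟩
        · rw [← Finset.card_pos]
          omega
        · omega
      · rw [if_neg h2, TensorProduct.zero_tmul]
        exact Submodule.zero_mem _
    · rw [bp_e, om_e]
      by_cases h2 : 2 ≤ t.1.card
      · rw [if_pos h2, bd_e, TensorProduct.tmul_sum]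
        refine Submodule.sum_mem _ fun x hx => ?_
        rw [TensorProduct.tmul_smul, ← TensorProduct.smul_tmul']
        refine Submodule.smul_mem _ _ (Submodule.smul_mem _ _ (Submodule.subset_span ?_))
        have hc := card_er t hx
        refine ⟨s, er t x, rfl, hs, ?_, Finset.Subset.refl _, Finset.erase_subset _ _, ?_⟩
        · rw [← Finset.card_pos]
          omega
        · omega
      · rw [if_neg h2, TensorProduct.tmul_zero]
        exact Submodule.zero_mem _

end Pool.Agent.H9.HN
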